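import Pool.Agent.Y816.PD.UniB

set_option autoImplicit false

/-!
# Simultaneous almost primes `2 ^ e + j` just above several powers of two, with restricted digits of `j`

For every large `n` and every set `E ⊆ [n, D n]` of at most `k` exponents the numbers `2 ^ e + j`, `e ∈ E`,
`j < b ^ K ≤ 2 ^ (n / D)`, are considered, where the `i`-th digit of `j` in base `b` belongs to an arbitrary set `A i`
for all `i < K`; `K` is the integer part of `log_b 2 ^ ⌊n / D⌋`.
-/

namespace Pool.Agent.Results.MP_78b39f_nt.RestrictedDigits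

open Finset Filter
open Pool.Agent.Y816.PD (NA ND)

/-- The `j` for which, for all `e ∈ E`, all prime factors `p` of `2 ^ e + j` satisfy `p ^ r > z`, and `2 ^ e + j` has at
most `r` prime factors. -/
def Almost (E : Finset ℕ) (r z : ℕ) : Set ℕ := {j | ∀ e ∈ E, (∀ p : ℕ, p.Prime → p ∣ 2 ^ e + j → z < p ^ r) ∧
  (2 ^ e + j).primeFactorsList.length ≤ r}

open Classical in
/-- The product over the primes `p ≤ z` of `1 - ω(p) / p`, with `ω(p)` the number of the `j < p` for which `p`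
divides some `2 ^ e + j`, `e ∈ E`. -/
noncomputable def W (E : Finset ℕ) (z : ℕ) : ℝ := ∏ p ∈ (Icc 1 z).filter Nat.Prime,
  (1 - (((range p).filter (fun j : ℕ => ∃ e ∈ E, p ∣ 2 ^ e + j)).card : ℝ) / p)

lemma W_eq (E : Finset ℕ) (z : ℕ) :
    Pool.Agent.Y816.PD.WG (Pool.Agent.Y816.PD.GB 1 (E.image (fun e => 2 ^ e))) z = W E z := by
  classical
  unfold Pool.Agent.Y816.PD.WG W
  apply prod_congr rfl
  intro p hp
  rw [mem_filter] at hp
  congr 3
  congr 1
  ext m
  rw [mem_filter, mem_filter, Pool.Agent.Y816.PD.GB_dvd 1 _ m hp.2]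
  simp only [mem_image, exists_exists_and_eq_and, one_mul]

/-- **Simultaneous almost primes just above several powers of two, with restricted digits.** -/
theorem result (k : ℕ) (hk : 1 ≤ k) (D : ℕ) (hD : 1 ≤ D) :
    ∃ c : ℝ, 0 < c ∧ ∃ r₀ : ℕ, 2 ≤ r₀ ∧ ∀ r : ℕ, r₀ ≤ r → ∀ b : ℕ, 2 ≤ b → ∃ κ C : ℝ, 0 < κ ∧ 0 < C ∧
      ∀ᶠ n : ℕ in atTop, ∀ E : Finset ℕ, E.card ≤ k → (∀ e ∈ E, n ≤ e ∧ e ≤ D * n) →
        ∀ K : ℕ, K = Nat.log b (2 ^ (n / D)) →
        ∀ A : ℕ → Finset ℕ, (∀ i < K, A i ⊆ range b) → (b : ℝ) ^ K ≤ Real.exp (c * K) * NA K A →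
        ((∃ d ∈ A 0, ∀ e ∈ E, (2 ^ e + d).Coprime b) → κ * NA K A * W E (b ^ K) ≤ ND b K A (Almost E r (b ^ K))) ∧
        (ND b K A {j | ∀ e ∈ E, (2 ^ e + j).Prime} : ℝ) ≤ C * NA K A * W E (b ^ K) := by
  obtain ⟨c, hc, r₀, hr₀, h⟩ := Pool.Agent.Y816.PD.uni_apB k hk (4 * D * D)
  refine ⟨c, hc, r₀, hr₀, fun r hr b hb => ?_⟩
  obtain ⟨κ, C, hκ, hC, h1⟩ := h r hr b hb
  refine ⟨κ, C, hκ, hC, ?_⟩
  obtain ⟨K0, hK0⟩ := eventually_atTop.1 h1
  have hb0 : 0 < b := by omega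
  filter_upwards [eventually_ge_atTop (D * (b ^ (K0 + 1) + D + 1))] with n hn E hEk hEn K hK A hA hprod
  have hnD : b ^ (K0 + 1) + D + 1 ≤ n / D := by
    rw [Nat.le_div_iff_mul_le (by omega), mul_comm]
    exact hn
  have h2n : n / D < 2 ^ (n / D) := Nat.lt_two_pow_self
  have hKK : K0 + 1 ≤ K := by
    rw [hK]
    exact Nat.le_log_of_pow_le (by omega) (by omega)
  have hb2 : 2 ^ (n / D) < b ^ (K + 1) := by
    rw [hK]
    exact Nat.lt_pow_succ_log_self (by omega) _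
  have hn2 : n ≤ 2 * D * (n / D) := by
    have e1 := Nat.lt_mul_div_succ n (by omega : 0 < D)
    have e2 : D * (n / D + 1) ≤ 2 * D * (n / D) := by
      calc D * (n / D + 1) ≤ D * (2 * (n / D)) := Nat.mul_le_mul_left _ (by omega)
        _ = _ := by ring
    omega
  have hE : ∀ e ∈ E, 2 ^ e ≤ b ^ (4 * D * D * K) := by
    intro e he
    calc 2 ^ e ≤ 2 ^ (D * (2 * D * (n / D))) :=
          Nat.pow_le_pow_right (by norm_num) ((hEn e he).2.trans (Nat.mul_le_mul_left _ hn2))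
      _ = (2 ^ (n / D)) ^ (2 * D * D) := by rw [← pow_mul]; congr 1; ring
      _ ≤ (b ^ (K + 1)) ^ (2 * D * D) := Nat.pow_le_pow_left hb2.le _
      _ = b ^ ((K + 1) * (2 * D * D)) := (pow_mul _ _ _).symm
      _ ≤ b ^ (4 * D * D * K) := Nat.pow_le_pow_right hb0 (by
          calc (K + 1) * (2 * D * D) ≤ (2 * K) * (2 * D * D) := Nat.mul_le_mul_right _ (by omega)
            _ = 4 * D * D * K := by ring)
  have hn1 : 1 ≤ n := by
    have : n / D ≤ n := Nat.div_le_self n D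
    omega
  obtain ⟨h2, h3⟩ := hK0 K (by omega) 1 (E.image (fun e => 2 ^ e)) le_rfl (Nat.one_le_pow _ _ hb0)
    (card_image_le.trans hEk) (by
      intro s hs
      obtain ⟨e, he, rfl⟩ := mem_image.1 hs
      exact hE e he) (by
      intro p hp
      by_cases hp2 : p = 2
      · subst hp2
        refine ⟨1, fun s hs hd => ?_⟩
        obtain ⟨e, he, rfl⟩ := mem_image.1 hs
        have h4 : 2 ∣ 2 ^ e := dvd_pow_self 2 (by have := (hEn e he).1; omega)
        have h5 := (Nat.dvd_add_right h4).1 hd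
        omega
      · refine ⟨0, fun s hs hd => ?_⟩
        obtain ⟨e, he, rfl⟩ := mem_image.1 hs
        rw [mul_zero, add_zero] at hd
        exact hp2 ((Nat.prime_dvd_prime_iff_eq hp Nat.prime_two).1 (hp.dvd_of_dvd_pow hd))) A hA hprod
  rw [W_eq] at h2 h3
  constructor
  · rintro ⟨d, hd, hcop⟩
    refine (h2 ⟨d, hd, fun s hs => ?_⟩).trans (Nat.cast_le.2 ?_)
    · obtain ⟨e, he, rfl⟩ := mem_image.1 hs
      rw [one_mul]
      exact hcop e he
    · apply Pool.Agent.Y816.PD.ND_mono'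
      intro j _ hj e he
      have := hj (2 ^ e) (mem_image_of_mem _ he)
      rw [one_mul] at this
      exact this
  · refine le_trans (Nat.cast_le.2 ?_) h3
    apply Pool.Agent.Y816.PD.ND_mono'
    intro j _ hj s hs
    obtain ⟨e, he, rfl⟩ := mem_image.1 hs
    rw [one_mul]
    exact hj e he

end Pool.Agent.Results.MP_78b39f_nt.RestrictedDigits
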